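import Mathlib
import Pool.Agent.H679UL.Pos
import Pool.Agent.H679UL.Neg
import Pool.Agent.H507_U.Forced
import Pool.Agent.R594.Star.CH

set_option autoImplicit false

/-!
# MP_1c8600_lc, Q1: the collapse of the projective hierarchy over a sequence of sets is independent

Is there, for every `k ≥ 1`, a sequence `A` of subsets of a set `E` of cardinality `𝔠` such that (a) the
Borel classes over `A` do not stabilise and (b)_k all projective sets over `A` are of class `k`?

(1) The continuum hypothesis implies the answer yes: one sequence `A` satisfies (a) and (b)_k for all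
`k ≥ 1`. (2) The combinatorial statement `Phi` implies that for no `k ≥ 1` there is such a sequence.
Both hypotheses hold in the extensions by suitable forcing notions; so Q1 is independent of ZFC.

The problem is a variant of MP_57a173_lc (projections from `E × E` only, all projective sets Borel);
we use the construction of its solution by helper507 (`Pool.Agent.H507_U`).

Proof of (1). Let `X` be the set of the points of the generic sequence of `Pool.Agent.H507_U`, now
taken generic over finitely many parameters. We show that for all `n` the projection to `X ^ n` of a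
Borel subset of `X ^ (n + 1)` is Borel (`proj_borelN`), by an elimination of quantifiers: distinct
points of the sequence beyond some index `δ` behave like mutually generic points, those of types
beyond `δ` like Cohen reals (`claimB`). So all projective sets are Borel, and Borel sets belong to all
projective classes.

Proof of (2). If (a) and (b)_k hold then the sets `A n` cover `E` (`covered`); there is no Borel map
from `E` onto the Cantor space, because such a map would give codes for the sets of class `k` and so
a projective set which is not of class `k`, by a diagonal argument (`universal`, `no_surj_N`). Then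
`Phi` gives that every Borel set is of a bounded class, as in MP_57a173_lc; this contradicts (a).
-/

namespace Pool.Agent.Results.MP_1c8600_lc.Independence

open Cardinal
open Pool.Agent.H679UL (Q1 CondA CondB pos_of_continuum not_cond)
open Pool.Agent.H507_U (Phi PhiN phi_forced)
open Pool.Agent.Helper126.Sus.Forc
open Pool.Agent.R594.Star (OmegaOnePreserved ContinuumHypothesis)

universe u

/-- The continuum hypothesis: some family of functions from `ℕ` to `ℕ`, indexed by the countable
ordinals, contains every function from `ℕ` to `ℕ`. -/
def CH : Prop := ∃ F : K1 → ℕ → ℕ, ∀ f : ℕ → ℕ, ∃ α, F α = f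

/-- Q1 is independent of ZFC. (1) The continuum hypothesis implies Q1 for every set `E` of
cardinality continuum, even with a sequence which works for all `k ≥ 1`, and it is forced, together
with the preservation of `ω₁`, by some forcing notion. (2) `Phi` implies for every set `E` that for no
`k ≥ 1` there is a sequence with (a) and (b)_k, so that Q1 fails, and it is forced by some forcing
notion. -/
theorem result :
    ((CH → ∀ E : Type u, #E = 𝔠 →
        Q1 E ∧ ∃ A : ℕ → Set E, CondA A ∧ ∀ k, 1 ≤ k → CondB A k) ∧
      ∃ (P : Type) (_ : Preorder P), Nonempty P ∧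
        ∀ p : P, p ∈ OmegaOnePreserved P ∧ p ∈ ContinuumHypothesis P) ∧
    ((∀ (W K : Type) (Lo : K → W → Prop) (N : W → List ℕ → ℕ) (b : W → List ℕ → ℕ → ℕ → Prop),
        Phi W K Lo N b → ∀ E : Type u,
          ¬ Q1 E ∧ ∀ k, 1 ≤ k → ¬ ∃ A : ℕ → Set E, CondA A ∧ CondB A k) ∧
      ∃ (P : Type) (_ : Preorder P) (W K : Type) (Lo : K → W → Prop) (N : W → List ℕ → ℕ)
        (b : W → List ℕ → ℕ → ℕ → Set P), Nonempty P ∧ ∀ p : P, p ∈ PhiN Lo N b) := by
  refine ⟨⟨fun h E hE => ?_, Pool.Agent.R594.Star.exists_forcing_ch⟩, ⟨?_,
      ⟨Pool.Agent.Helper467_LV.GG Pool.Agent.Helper467_LV.II, inferInstance,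
        Pool.Agent.Helper467_LV.Wd, Pool.Agent.Helper467_LV.II, Pool.Agent.Helper467_LV.Below,
        Pool.Agent.Helper467_LV.Nw, Pool.Agent.Helper467_LV.bw, ⟨1⟩, phi_forced⟩⟩⟩
  · obtain ⟨A, h1, h2⟩ := pos_of_continuum (Pool.Agent.R594.Star.ch_iff.1 h) E hE
    exact ⟨fun k hk => ⟨A, h1, h2 k hk⟩, A, h1, h2⟩
  · intro W K Lo N b h E
    have key : ∀ k, 1 ≤ k → ¬ ∃ A : ℕ → Set E, CondA A ∧ CondB A k := by
      rintro k hk ⟨A, hA⟩
      exact not_cond h E A k hk hA
    exact ⟨fun hQ => key 1 le_rfl (hQ 1 le_rfl), key⟩

end Pool.Agent.Results.MP_1c8600_lc.Independence
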